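import Mathlib
import Pool.Agent.Lib.MP_4cc90a_co.Lat

set_option autoImplicit false

namespace Pool.Agent.Results.MP_4cc90a_co.NoGcd

open Pool.Agent.Lib.MP_4cc90a_co

/-- `ChainWord c x z w`: `w` is the word of colors along some saturated chain from `x` to `z`. -/
inductive ChainWord {L A : Type} [PartialOrder L] (c : L → L → A) : L → L → List A → Prop
  | nil (x : L) : ChainWord c x x []
  | cons {x y z : L} {w : List A} : x ⋖ y → ChainWord c y z w → ChainWord c x z (c x y :: w)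

/-- The defining relations: for atoms `s`, `t`, the color words of two saturated chains from the
bottom to the join of `s` and `t`, the first through `s` and the second through `t`. -/
def Rel {L : Type} [Lattice L] [OrderBot L] (c : L → L → {s : L // IsAtom s})
    (u v : FreeMonoid {s : L // IsAtom s}) : Prop :=
  ∃ (s t : {s : L // IsAtom s}) (p q : List {s : L // IsAtom s}),
    ChainWord c s.1 (s.1 ⊔ t.1) p ∧ ChainWord c t.1 (s.1 ⊔ t.1) q ∧
    u = FreeMonoid.ofList (c ⊥ s.1 :: p) ∧ v = FreeMonoid.ofList (c ⊥ t.1 :: q)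

theorem run_chain {x z : Lt} {w : List {s : Lt // IsAtom s}} (h : ChainWord col x z w)
    (σ : Fin 14) : run (potT σ x) w = potT σ z := by
  induction h with
  | nil x => rfl
  | cons hxy _ ih =>
    rw [← ih, ← pot_step σ _ _ hxy]
    simp only [run, List.foldl_cons, col, atm, idx_atm]

theorem run_con {u v : FreeMonoid {s : Lt // IsAtom s}} (h : conGen (Rel col) u v) :
    ∀ σ, run σ u.toList = run σ v.toList := by
  induction h with
  | of u v h =>
    obtain ⟨s, t, p, q, hp, hq, rfl, rfl⟩ := h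
    intro σ
    have h1 := run_chain (ChainWord.cons (bot_covBy_iff.mpr s.2) hp) σ
    have h2 := run_chain (ChainWord.cons (bot_covBy_iff.mpr t.2) hq) σ
    rw [pot_bot] at h1 h2
    exact h1.trans h2.symm
  | refl => exact fun _ => rfl
  | symm _ ih => exact fun σ => (ih σ).symm
  | trans _ _ ih ih' => exact fun σ => (ih σ).trans (ih' σ)
  | mul _ _ ih ih' =>
    intro σ
    rw [FreeMonoid.toList_mul, FreeMonoid.toList_mul, run_append, run_append, ih, ih']

/-- The state reached by an element of the monoid. -/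
def state (m : PresentedMonoid (Rel col)) : Fin 14 :=
  Quotient.liftOn m (fun u => run 0 u.toList) fun _ _ h => run_con h 0

theorem reach_mul (m n : PresentedMonoid (Rel col)) : reachT (state m) (state (m * n)) = 1 := by
  induction m with | _ u
  induction n with | _ v
  rw [← map_mul]
  change reachT (run 0 u.toList) (run 0 (u * v).toList) = 1
  rw [FreeMonoid.toList_mul, run_append]
  exact reach_run _ _ _ (reach_refl _)

/-- The generators. -/
def gen (i : Fin 4) : PresentedMonoid (Rel col) := PresentedMonoid.of _ (atm i)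

theorem rel2 (i j : Fin 4) (h1 : atomEl i ⋖ atomEl i ⊔ atomEl j) (h2 : atomEl j ⋖ atomEl i ⊔ atomEl j) :
    gen (colT ⊥ (atomEl i)) * gen (colT (atomEl i) (atomEl i ⊔ atomEl j)) =
      gen (colT ⊥ (atomEl j)) * gen (colT (atomEl j) (atomEl i ⊔ atomEl j)) :=
  PresentedMonoid.mk_eq_mk_of_rel ⟨atm i, atm j, _, _, ChainWord.cons h1 (ChainWord.nil _),
    ChainWord.cons h2 (ChainWord.nil _), rfl, rfl⟩

theorem result :
    ∃ (L : Type) (_ : Fintype L) (_ : Lattice L) (_ : BoundedOrder L) (rk : L → ℕ)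
      (c : L → L → {s : L // IsAtom s}),
      rk ⊥ = 0 ∧ (∀ x y : L, x ⋖ y → rk y = rk x + 1) ∧
      IsLUB {s : L | IsAtom s} ⊤ ∧
      (∀ s : {s : L // IsAtom s}, c ⊥ s.1 = s) ∧
      (∀ x : L, x ≠ ⊥ → x ≠ ⊤ → ∃ z : L, IsLUB {y : L | x ⋖ y} z ∧
        ∃ φ : Set.Icc x z ↪o L, (∀ u : Set.Icc x z, rk (φ u) + rk x = rk u.1) ∧
          ∀ u v : Set.Icc x z, u.1 ⋖ v.1 → φ u ⋖ φ v ∧ c (φ u) (φ v) = c u.1 v.1) ∧
      ∃ u v : PresentedMonoid (Rel c), ¬ ∃ d : PresentedMonoid (Rel c),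
        (∃ w, u = d * w) ∧ (∃ w, v = d * w) ∧
        ∀ d' : PresentedMonoid (Rel c), (∃ w, u = d' * w) → (∃ w, v = d' * w) →
          ∃ w, d = d' * w := by
  refine ⟨Lt, inferInstance, inferInstance, inferInstance, rkT, col, rfl, rk_cov,
    ⟨fun _ _ => le_top, fun u hu => atoms_lub u fun s hs => hu hs⟩,
    fun s => Subtype.ext (col_bot s.1 s.2), fun x h0 h1 => ⟨topT x,
      ⟨fun y hy => top_ub x h0 h1 y hy, fun u hu => top_least x h0 h1 u fun y hy => hu hy⟩,
      OrderEmbedding.ofMapLEIff (fun u => phiT x u.1)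
        (fun u v => phi_le x h0 h1 u.1 u.2.1 u.2.2 v.1 v.2.1 v.2.2),
      fun u => phi_rk x h0 h1 u.1 u.2.1 u.2.2, fun u v huv => ?_⟩, ?_⟩
  · obtain ⟨a, b⟩ := phi_col x h0 h1 u.1 u.2.1 u.2.2 v.1 v.2.1 v.2.2 huv
    exact ⟨a, congrArg atm b⟩
  have r1 : gen 0 * gen 1 = gen 2 * gen 0 := rel2 0 2 (by decide +kernel) (by decide +kernel)
  have r2 : gen 0 * gen 2 = gen 3 * gen 0 := rel2 0 3 (by decide +kernel) (by decide +kernel)
  have r3 : gen 1 * gen 1 = gen 2 * gen 1 := rel2 1 2 (by decide +kernel) (by decide +kernel)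
  have r4 : gen 1 * gen 2 = gen 3 * gen 1 := rel2 1 3 (by decide +kernel) (by decide +kernel)
  refine ⟨gen 2 * (gen 0 * gen 1), gen 2 * (gen 1 * gen 1), ?_⟩
  rintro ⟨d, ⟨w₁, h₁⟩, ⟨w₂, h₂⟩, hd⟩
  obtain ⟨w₃, h₃⟩ := hd (gen 2) ⟨_, rfl⟩ ⟨_, rfl⟩
  obtain ⟨w₄, h₄⟩ := hd (gen 3) ⟨gen 0 * gen 1, by
      rw [← mul_assoc, ← r1, mul_assoc, r3, ← mul_assoc, r2, mul_assoc]⟩
    ⟨gen 1 * gen 1, by
      calc gen 2 * (gen 1 * gen 1) = gen 1 * (gen 1 * gen 1) := by
            rw [← mul_assoc, ← r3, mul_assoc]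
        _ = gen 1 * (gen 2 * gen 1) := by rw [r3]
        _ = gen 3 * (gen 1 * gen 1) := by rw [← mul_assoc, r4, mul_assoc]⟩
  have a1 := reach_mul d w₁
  have a2 := reach_mul d w₂
  have a3 := reach_mul (gen 2) w₃
  have a4 := reach_mul (gen 3) w₄
  rw [← h₁] at a1
  rw [← h₂] at a2
  rw [← h₃] at a3
  rw [← h₄] at a4
  exact reach_final (state d) a3 a4 a1 a2

end Pool.Agent.Results.MP_4cc90a_co.NoGcd
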